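import Pool.Agent.H.MP_4b0b35_an.A

set_option autoImplicit false

namespace Pool.Agent.H.MP_ed6c6b_an

open Filter Topology Metric Set Real Pool.Agent.H.MP_321233_an Pool.Agent.H.MP_4b0b35_an

noncomputable def G (a : L2) (z : ℂ) : ℂ := inner ℂ (kk z) a

lemma n2 (a : L2) : HasSum (fun n => ‖a n‖ ^ 2) (‖a‖ ^ 2) := by
  have := lp.hasSum_norm (p := 2) (by norm_num) a
  simpa only [ENNReal.toReal_ofNat, Real.rpow_ofNat] using this

noncomputable def bs0 (a : L2) : L2 := ⟨fun n => a (n + 1), memℓp_gen (by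
  simpa only [ENNReal.toReal_ofNat, Real.rpow_ofNat] using
    (summable_nat_add_iff 1).2 (n2 a).summable)⟩

lemma bs0_sq (a : L2) : ‖a‖ ^ 2 = ‖a 0‖ ^ 2 + ‖bs0 a‖ ^ 2 := by
  have := ((hasSum_nat_add_iff' 1).2 (n2 a)).unique (n2 (bs0 a))
  rw [Finset.sum_range_one] at this
  linarith

lemma bs0_le (a : L2) : ‖bs0 a‖ ≤ ‖a‖ :=
  le_of_sq_le_sq (by rw [bs0_sq a]; linarith [sq_nonneg ‖a 0‖]) (norm_nonneg _)

noncomputable def B : L2 →L[ℂ] L2 :=
  LinearMap.mkContinuous ⟨⟨bs0, fun _ _ => rfl⟩, fun _ _ => rfl⟩ 1 fun a =>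
    (bs0_le a).trans_eq (one_mul _).symm

lemma B_sq (a : L2) : ‖a‖ ^ 2 = ‖a 0‖ ^ 2 + ‖B a‖ ^ 2 := bs0_sq a

lemma B_le (a : L2) : ‖B a‖ ≤ ‖a‖ := bs0_le a

lemma G_B {z : ℂ} (hz : ‖z‖ < 1) (a : L2) : G a z = a 0 + z * G (B a) z := by
  have h1 := (hasSum_nat_add_iff' 1).2 (ev_eq hz a)
  have h2 := h1.unique (((ev_eq hz (B a)).mul_left z).congr_fun fun n => by
    change a (n + 1) * z ^ (n + 1) = z * (a (n + 1) * z ^ n)
    ring)
  rw [Finset.sum_range_one, pow_zero, mul_one] at h2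
  unfold G
  linear_combination h2

lemma G_diff (a : L2) : DifferentiableOn ℂ (G a) (ball 0 1) := by
  have h := ((innerSL ℂ (star a)).comp_hasFPowerSeriesOnBall ser_has).analyticOnNhd
  rw [eball_one] at h
  refine h.differentiableOn.congr fun z hz => ?_
  have hz' : ‖z‖ < 1 := by simpa using hz
  refine (ev_eq hz' a).unique ((lp.hasSum_inner (𝕜 := ℂ) (star a) (ser.sum z)).congr_fun fun n => ?_)
  rw [ser_apply hz']
  simp [mul_comm]

lemma G_le {z : ℂ} (hz : ‖z‖ < 1) (a : L2) : ‖G a z‖ ^ 2 * (1 - ‖z‖ ^ 2) ≤ ‖a‖ ^ 2 := by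
  have h1 := pow_le_pow_left₀ (norm_nonneg _) (norm_inner_le_norm (𝕜 := ℂ) (kk z) a) 2
  have h2 := mul_le_mul_of_nonneg_right h1 (sq1 hz).le
  rw [mul_pow, mul_right_comm, kk_sq hz, one_mul] at h2
  exact h2

variable {r : ℝ}

lemma sph (h0 : 0 ≤ r) {z : ℂ} (hz : z ∈ sphere (0 : ℂ) |r|) : ‖z‖ = r := by
  rwa [mem_sphere_zero_iff_norm, abs_of_nonneg h0] at hz

lemma ci {E : Type} [NormedAddCommGroup E] (h0 : 0 ≤ r) (h1 : r < 1) {f : ℂ → E}
    (hf : ContinuousOn f (ball 0 1)) : CircleIntegrable f 0 r :=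
  (hf.mono (sphere_subset_closedBall.trans (closedBall_subset_ball h1))).circleIntegrable h0

lemma mvp (h0 : 0 ≤ r) (h1 : r < 1) {f : ℂ → ℂ} (hf : DifferentiableOn ℂ f (ball 0 1)) :
    circleAverage (fun z => (f z).re) 0 r = (f 0).re := by
  have h2 := (hf.mono (closure_ball_subset_closedBall.trans (closedBall_subset_ball
    (show |r| < 1 by rwa [abs_of_nonneg h0])))).diffContOnCl.circleAverage
  rw [← h2]
  exact Complex.reCLM.circleAverage_comp_comm (ci h0 h1 hf.continuousOn)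

lemma avg3 (h0 : 0 ≤ r) (h1 : r < 1) {f g : ℂ → ℝ} (hf : ContinuousOn f (ball 0 1))
    (hg : ContinuousOn g (ball 0 1)) (c k : ℝ) :
    CircleIntegrable (fun z => f z + c + k * g z) 0 r ∧
      circleAverage (fun z => f z + c + k * g z) 0 r =
        circleAverage f 0 r + c + k * circleAverage g 0 r := by
  have c1 : ContinuousOn (fun z => f z + c) (ball 0 1) := hf.add continuousOn_const
  have c2 : ContinuousOn (fun z => k • g z) (ball 0 1) := hg.const_smul k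
  refine ⟨ci h0 h1 (c1.add c2), (circleAverage_fun_add (ci h0 h1 c1) (ci h0 h1 c2)).trans ?_⟩
  rw [circleAverage_fun_add (ci h0 h1 hf) (ci h0 h1 continuousOn_const), circleAverage_const,
    circleAverage_fun_smul, smul_eq_mul]

lemma cre {f : ℂ → ℂ} (hf : DifferentiableOn ℂ f (ball 0 1)) :
    ContinuousOn (fun z => (f z).re) (ball 0 1) :=
  Complex.continuous_re.comp_continuousOn hf.continuousOn

lemma csq (a : L2) : ContinuousOn (fun z => ‖G a z‖ ^ 2) (ball 0 1) :=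
  (G_diff a).continuousOn.norm.pow 2

lemma step (h0 : 0 ≤ r) (h1 : r < 1) (a : L2) : circleAverage (fun z => ‖G a z‖ ^ 2) 0 r =
    ‖a 0‖ ^ 2 + r ^ 2 * circleAverage (fun z => ‖G (B a) z‖ ^ 2) 0 r := by
  have d1 : DifferentiableOn ℂ (fun z => 2 * starRingEnd ℂ (a 0) * (z * G (B a) z)) (ball 0 1) :=
    (differentiableOn_id.mul (G_diff _)).const_mul _
  rw [circleAverage_congr_sphere (f₂ := fun z => (2 * starRingEnd ℂ (a 0) * (z * G (B a) z)).re +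
    ‖a 0‖ ^ 2 + r ^ 2 * ‖G (B a) z‖ ^ 2) fun z hz => by
      beta_reduce
      rw [G_B ((sph h0 hz).trans_lt h1), ← sph h0 hz, ← mul_pow, ← norm_mul]
      generalize z * G (B a) z = w
      simp only [Complex.sq_norm, Complex.normSq_apply]
      simp
      ring, (avg3 h0 h1 (cre d1) (csq _) _ _).2, mvp h0 h1 d1]
  simp

lemma steps (h0 : 0 ≤ r) (h1 : r < 1) (N : ℕ) (a : L2) :
    ∑ n ∈ Finset.range N, ‖a n‖ ^ 2 * r ^ (2 * n) ≤ circleAverage (fun z => ‖G a z‖ ^ 2) 0 r ∧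
    circleAverage (fun z => ‖G a z‖ ^ 2) 0 r ≤ ‖a‖ ^ 2 + (r ^ 2) ^ N * (‖a‖ ^ 2 / (1 - r ^ 2)) := by
  have p : 0 < 1 - r ^ 2 := by nlinarith
  induction N generalizing a with
  | zero =>
    refine ⟨circleAverage_nonneg_of_nonneg fun _ _ => sq_nonneg _,
      le_add_of_nonneg_of_le (sq_nonneg _) (circleAverage_mono_on_of_le_circle
        (ci h0 h1 (csq a)) fun z hz => ?_)⟩
    rw [pow_zero, one_mul, le_div_iff₀ p, ← sph h0 hz]
    exact G_le ((sph h0 hz).trans_lt h1) a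
  | succ N ih =>
    obtain ⟨i1, i2⟩ := ih (B a)
    have j1 := mul_le_mul_of_nonneg_left i1 (sq_nonneg r)
    have j2 := mul_le_mul_of_nonneg_left i2 (sq_nonneg r)
    rw [step h0 h1, Finset.sum_range_succ']
    constructor
    · rw [Finset.mul_sum, Finset.sum_congr rfl (g := fun n => ‖a (n + 1)‖ ^ 2 * r ^ (2 * (n + 1)))
        fun n _ => by
          change r ^ 2 * (‖a (n + 1)‖ ^ 2 * _) = _
          ring] at j1
      simp only [mul_zero, pow_zero, mul_one]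
      linarith
    · have k1 := B_sq a
      have k2 : ‖B a‖ ^ 2 / (1 - r ^ 2) ≤ ‖a‖ ^ 2 / (1 - r ^ 2) := by
        gcongr
        exact B_le a
      have k3 := mul_le_mul_of_nonneg_left k2 (show 0 ≤ (r ^ 2) ^ (N + 1) by positivity)
      rw [pow_succ (r ^ 2)] at k3 ⊢
      nlinarith [sq_nonneg ‖B a‖]

lemma P2 (h0 : 0 ≤ r) (h1 : r < 1) (a : L2) :
    circleAverage (fun z => ‖G a z‖ ^ 2) 0 r ≤ ‖a‖ ^ 2 := by
  have := ((tendsto_pow_atTop_nhds_zero_of_lt_one (sq_nonneg r) (by nlinarith)).mul_const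
    (‖a‖ ^ 2 / (1 - r ^ 2))).const_add (‖a‖ ^ 2)
  rw [zero_mul, add_zero] at this
  exact ge_of_tendsto' this fun N => (steps h0 h1 N a).2

lemma P1 (a : L2) {M : ℝ} (h : ∀ r, 0 ≤ r → r < 1 → circleAverage (fun z => ‖G a z‖ ^ 2) 0 r ≤ M) :
    ‖a‖ ^ 2 ≤ M := by
  refine le_of_tendsto' (n2 a).tendsto_sum_nat fun N => ?_
  have h1 : Tendsto (fun r : ℝ => ∑ n ∈ Finset.range N, ‖a n‖ ^ 2 * r ^ (2 * n)) (𝓝[<] 1)
      (𝓝 (∑ n ∈ Finset.range N, ‖a n‖ ^ 2 * 1 ^ (2 * n))) :=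
    (Continuous.tendsto (by fun_prop) 1).mono_left nhdsWithin_le_nhds
  simp only [one_pow, mul_one] at h1
  refine le_of_tendsto h1 ?_
  filter_upwards [Ioo_mem_nhdsLT zero_lt_one] with r hr
  exact (steps hr.1.le hr.2 N a).1.trans (h r hr.1.le hr.2)

lemma P3 (h0 : 0 ≤ r) (h1 : r < 1) (a : L2) : circleAverage (fun z => ‖G a z‖) 0 r ≤ ‖a‖ := by
  refine le_of_forall_pos_le_add fun ε hε => ?_
  have t0 : 0 < ‖a‖ + ε := by positivity
  obtain ⟨i1, i2⟩ := avg3 h0 h1 (f := fun _ => 0) continuousOn_const (csq a) ((‖a‖ + ε) / 2)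
    (2 * (‖a‖ + ε))⁻¹
  refine (circleAverage_mono (ci h0 h1 (G_diff a).continuousOn.norm) i1 fun z _ => ?_).trans ?_
  · rw [zero_add, inv_mul_eq_div, ← sub_le_iff_le_add', le_div_iff₀ (by positivity)]
    nlinarith [sq_nonneg (‖G a z‖ - (‖a‖ + ε))]
  · rw [i2, circleAverage_const, zero_add, inv_mul_eq_div,
      ← le_sub_iff_add_le', div_le_iff₀ (by positivity)]
    nlinarith [P2 h0 h1 a, norm_nonneg a]

noncomputable def cc (a : L2) (u : ℂ) : L2 := Ring.inverse (1 - u • B) a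

lemma unit {u : ℂ} (hu : ‖u‖ < 1) : IsUnit (1 - u • B) :=
  isUnit_one_sub_of_norm_lt_one (by
    rw [norm_smul]
    exact (mul_le_of_le_one_right (norm_nonneg _) (B.opNorm_le_bound zero_le_one fun a =>
      (B_le a).trans_eq (one_mul _).symm)).trans_lt hu)

lemma cc_eq (a : L2) {u : ℂ} (hu : ‖u‖ < 1) : cc a u = a + u • B (cc a u) :=
  eq_add_of_sub_eq (congrArg (fun T : L2 →L[ℂ] L2 => T a) (Ring.mul_inverse_cancel _ (unit hu)))

lemma cc_diff (a : L2) : DifferentiableOn ℂ (fun u => inner ℂ a (cc a u)) (ball 0 1) := fun u hu => by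
  have h1 : DifferentiableAt ℂ (fun u : ℂ => Ring.inverse (1 - u • B)) u :=
    ((differentiableAt_const _).sub (differentiableAt_id.smul_const _)).inverse
      (unit (by simpa using hu))
  exact ((innerSL ℂ a).differentiableAt.comp u
    (h1.clm_apply (differentiableAt_const a))).differentiableWithinAt

lemma cc_zero (a : L2) {u : ℂ} (hu : ‖u‖ < 1) : G a u = cc a u 0 := by
  have h1 := congrArg (fun x => G x u) (cc_eq a hu)
  have h2 := G_B hu (cc a u)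
  simp only [G, inner_add_right, inner_smul_right] at h1 h2 ⊢
  linear_combination h2 - h1

lemma cc_le (a : L2) {u : ℂ} (hu : ‖u‖ < 1) : (1 - ‖u‖) * ‖cc a u‖ ≤ ‖a‖ := by
  have h1 := norm_add_le a (u • B (cc a u))
  rw [← cc_eq a hu, norm_smul] at h1
  nlinarith [mul_le_mul_of_nonneg_left (B_le (cc a u)) (norm_nonneg u)]

lemma cc_sub (a : L2) {u w : ℂ} (hu : ‖u‖ < 1) (hw : ‖w‖ < 1) :
    (1 - ‖u‖) * ‖cc a u - cc a w‖ ≤ ‖u - w‖ * ‖cc a w‖ := by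
  have h0 : cc a u - cc a w = u • B (cc a u - cc a w) + (u - w) • B (cc a w) := by
    conv_lhs => rw [cc_eq a hu, cc_eq a hw]
    rw [map_sub, smul_sub, sub_smul]
    abel
  have h1 := norm_add_le (u • B (cc a u - cc a w)) ((u - w) • B (cc a w))
  rw [← h0, norm_smul, norm_smul] at h1
  nlinarith [mul_le_mul_of_nonneg_left (B_le (cc a u - cc a w)) (norm_nonneg u),
    mul_le_mul_of_nonneg_left (B_le (cc a w)) (norm_nonneg (u - w))]

lemma maj (a : L2) {u : ℂ} (hu : ‖u‖ < 1) : ‖G a u‖ ^ 2 ≤ 2 * (inner ℂ a (cc a u)).re := by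
  have h1 := norm_sub_sq (𝕜 := ℂ) a (cc a u)
  have h2 : ‖a - cc a u‖ = ‖u‖ * ‖B (cc a u)‖ := by
    rw [norm_sub_rev, sub_eq_of_eq_add' (cc_eq a hu), norm_smul]
  have h3 := B_sq (cc a u)
  rw [h2, mul_pow, RCLike.re_to_complex] at h1
  rw [cc_zero a hu]
  nlinarith [mul_nonneg (sq1 hu).le (sq_nonneg ‖B (cc a u)‖), sq_nonneg ‖a‖]

lemma near (a : L2) {u w : ℂ} {δ : ℝ} (hδ : 0 < δ) (hw : ‖w‖ + 2 * δ = 1) (hu : ‖u - w‖ < δ) :
    δ * ‖cc a u‖ ≤ ‖a‖ ∧ δ ^ 2 * ‖cc a u - cc a w‖ ≤ ‖u - w‖ * ‖a‖ := by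
  have h1 : δ ≤ 1 - ‖u‖ := by linarith [norm_sub_norm_le u w]
  have h2 := cc_le a (u := u) (by linarith)
  have h3 := cc_le a (u := w) (by linarith)
  have h4 := cc_sub a (u := u) (w := w) (by linarith) (by linarith)
  have h5 := mul_le_mul_of_nonneg_right h1 (norm_nonneg (cc a u - cc a w))
  have h6 : δ * ‖cc a w‖ ≤ ‖a‖ := by nlinarith [norm_nonneg (cc a w)]
  exact ⟨(mul_le_mul_of_nonneg_right h1 (norm_nonneg _)).trans h2, by
    nlinarith [mul_le_mul_of_nonneg_left h6 (norm_nonneg (u - w)),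
      mul_le_mul_of_nonneg_left (h5.trans h4) hδ.le]⟩

lemma re_sub (a x y : L2) : (inner ℂ a x).re - (inner ℂ a y).re ≤ ‖a‖ * ‖x - y‖ := by
  rw [← Complex.sub_re, ← inner_sub_right]
  exact (Complex.re_le_norm _).trans (norm_inner_le_norm _ _)

lemma pt (a : L2) {u w : ℂ} {δ : ℝ} (hδ : 0 < δ) (hw : ‖w‖ + 2 * δ = 1) (hu : ‖u‖ < 1)
    (h0 : G a w = 0) : δ ^ 3 * ‖G a u‖ ^ 2 ≤ δ ^ 3 * (2 * inner ℂ a (cc a u)).re -
      δ ^ 3 * (2 * (inner ℂ a (cc a w)).re) + 2 * ‖a‖ ^ 2 * ‖u - w‖ := by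
  have e0 : (2 * inner ℂ a (cc a u)).re = 2 * (inner ℂ a (cc a u)).re := by simp
  have d1 : δ ≤ 1 / 2 := by linarith [norm_nonneg w]
  rw [e0]
  by_cases h : ‖u - w‖ < δ
  · obtain ⟨n1, n2⟩ := near a hδ hw h
    have a1 := re_sub a (cc a w) (cc a u)
    rw [norm_sub_rev] at a1
    have a2 : ‖G a u‖ ≤ ‖cc a u‖ := by
      rw [cc_zero a hu]
      exact lp.norm_apply_le_norm (by norm_num) _ _
    have a3 : ‖G a u‖ ≤ ‖cc a u - cc a w‖ := by
      have := lp.norm_apply_le_norm (by norm_num) (cc a u - cc a w) 0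
      rwa [lp.coeFn_sub, Pi.sub_apply, ← cc_zero a hu, ← cc_zero a (u := w) (by linarith), h0,
        sub_zero] at this
    have a4 := mul_le_mul ((mul_le_mul_of_nonneg_left a2 hδ.le).trans n1)
      ((mul_le_mul_of_nonneg_left a3 (sq_nonneg δ)).trans n2) (by positivity) (norm_nonneg _)
    have a5 := mul_le_mul_of_nonneg_left a1 (show 0 ≤ δ ^ 3 by positivity)
    have a6 := mul_le_mul_of_nonneg_left n2 (show 0 ≤ δ * ‖a‖ by positivity)
    have a7 := mul_le_mul_of_nonneg_right d1 (show 0 ≤ ‖a‖ ^ 2 * ‖u - w‖ by positivity)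
    nlinarith
  · push Not at h
    obtain ⟨n1, -⟩ := near a (u := w) hδ hw (by simpa using hδ)
    have a1 := re_sub a (cc a w) 0
    rw [inner_zero_right, Complex.zero_re, sub_zero, sub_zero] at a1
    have a2 := mul_le_mul_of_nonneg_left (maj a hu) (show 0 ≤ δ ^ 3 by positivity)
    have a5 := mul_le_mul_of_nonneg_left a1 (show 0 ≤ δ ^ 3 by positivity)
    have a6 := mul_le_mul_of_nonneg_left n1 (show 0 ≤ δ ^ 2 * ‖a‖ by positivity)
    have a7 : δ ^ 2 ≤ ‖u - w‖ := by nlinarith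
    nlinarith [mul_le_mul_of_nonneg_left a7 (sq_nonneg ‖a‖)]

theorem key {ψ : ℂ → ℂ} (hd : DifferentiableOn ℂ ψ (ball 0 1)) (hm : MapsTo ψ (ball 0 1) (ball 0 1))
    {w : ℂ} {δ : ℝ} (hδ : 0 < δ) (hw : ‖w‖ + 2 * δ = 1) (p : L2)
    (hp : ∀ z, ‖z‖ < 1 → G p z = ψ z - w) (hpδ : ‖p‖ < δ) (a b : L2) (h0 : G a w = 0)
    (hb : ∀ z, ‖z‖ < 1 → G b z = G a (ψ z)) : ‖b‖ ^ 2 ≤ 3 / δ ^ 3 * ‖p‖ * ‖a‖ ^ 2 := by
  refine P1 b fun r r0 r1 => ?_
  have d1 : DifferentiableOn ℂ (fun z => 2 * inner ℂ a (cc a (ψ z))) (ball 0 1) :=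
    ((cc_diff a).comp hd hm).const_mul 2
  have p3 : 0 < δ ^ 3 := by positivity
  obtain ⟨i1, i2⟩ := avg3 r0 r1 (cre d1) (g := fun z => ‖G p z‖) (G_diff p).continuousOn.norm
    (-(2 * (inner ℂ a (cc a w)).re)) (2 * ‖a‖ ^ 2 / δ ^ 3)
  have h1 := circleAverage_mono (ci r0 r1 (csq b)) i1 fun z hz => by
      have z1 := (sph r0 hz).trans_lt r1
      have := pt a hδ hw (u := ψ z) (by simpa using hm (by simpa using z1)) h0
      refine le_of_mul_le_mul_left ?_ p3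
      rw [hb z z1, hp z z1, mul_add, ← mul_assoc, mul_div_cancel₀ _ p3.ne']
      linarith
  rw [i2, mvp r0 r1 d1] at h1
  have h2 := mul_le_mul_of_nonneg_left (P3 r0 r1 p) (show 0 ≤ 2 * ‖a‖ ^ 2 / δ ^ 3 by positivity)
  have h3 : ‖ψ 0 - w‖ ≤ ‖p‖ := by
    have := G_le (z := 0) (by simp) p
    rw [hp 0 (by simp), norm_zero, zero_pow two_ne_zero, sub_zero, mul_one] at this
    exact le_of_sq_le_sq this (norm_nonneg _)
  obtain ⟨-, n2⟩ := near a hδ hw (h3.trans_lt hpδ)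
  have h4 := re_sub a (cc a (ψ 0)) (cc a w)
  have e0 : (2 * inner ℂ a (cc a (ψ 0))).re = 2 * (inner ℂ a (cc a (ψ 0))).re := by simp
  have d2 : δ ≤ 1 / 2 := by linarith [norm_nonneg w]
  have h5 : 2 * (‖a‖ * ‖cc a (ψ 0) - cc a w‖) ≤ 1 / δ ^ 3 * ‖p‖ * ‖a‖ ^ 2 := by
    rw [mul_assoc, one_div_mul_eq_div, le_div_iff₀ p3]
    have := mul_le_mul_of_nonneg_left (n2.trans (mul_le_mul_of_nonneg_right h3 (norm_nonneg a)))
      (show 0 ≤ 2 * δ * ‖a‖ by positivity)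
    nlinarith [mul_le_mul_of_nonneg_right d2 (show 0 ≤ ‖p‖ * ‖a‖ ^ 2 by positivity)]
  rw [e0] at h1
  calc _ ≤ 1 / δ ^ 3 * ‖p‖ * ‖a‖ ^ 2 + 2 * ‖a‖ ^ 2 / δ ^ 3 * ‖p‖ := by linarith
    _ = _ := by ring

end Pool.Agent.H.MP_ed6c6b_an
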