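import Pool.Agent.H.MP_ed6c6b_an.A

set_option autoImplicit false

namespace Pool.Agent.H.MP_ed6c6b_an

open Filter Topology Metric Set Real Pool.Agent.H.MP_321233_an Pool.Agent.H.MP_4b0b35_an

lemma G_ee (n : ℕ) {z : ℂ} (hz : ‖z‖ < 1) : G (ee n) z = z ^ n := by
  rw [G, ee, lp.inner_single_right, kk, ser_apply (by simpa using hz)]
  simp

lemma G_sub (a b : L2) (c z : ℂ) : G (a - c • b) z = G a z - c * G b z := by
  simp only [G, inner_sub_right, inner_smul_right]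

lemma lim {x y : ℕ → ℝ} {C δ : ℝ} (hδ : 0 < δ) (hδ1 : δ ≤ 1) (hC : 1 ≤ C) (x0 : ∀ n, 0 ≤ x n)
    (y0 : ∀ n, 0 ≤ y n) (h : ∀ n, y n < δ → x n ^ 2 ≤ C * y n)
    (hy : Tendsto (fun n : ℕ => y n ^ ((n : ℝ)⁻¹)) atTop (𝓝 0)) :
    Tendsto (fun n : ℕ => x n ^ ((n : ℝ)⁻¹)) atTop (𝓝 0) := by
  have h1 := (hy.const_mul C).sqrt
  rw [mul_zero, Real.sqrt_zero] at h1
  refine squeeze_zero' (Eventually.of_forall fun n => rpow_nonneg (x0 n) _) ?_ h1
  filter_upwards [hy.eventually (gt_mem_nhds hδ), eventually_gt_atTop 0] with n h2 hn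
  have p := rpow_nonneg (y0 n) (n : ℝ)⁻¹
  have e1 := rpow_inv_natCast_pow (y0 n) hn.ne'
  have e2 := rpow_inv_natCast_pow (x0 n) hn.ne'
  have h3 := h n ((e1.symm.le.trans (pow_le_of_le_one p (h2.le.trans hδ1) hn.ne')).trans_lt h2)
  refine Real.le_sqrt_of_sq_le (le_of_pow_le_pow_left₀ hn.ne' (by positivity) ?_)
  rw [← pow_mul, mul_comm 2 n, pow_mul, e2, mul_pow, e1]
  exact h3.trans (mul_le_mul_of_nonneg_right (le_self_pow₀ hC hn.ne') (y0 n))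

theorem main {φ : ℂ → ℂ} {ω : ℂ} (hd : DifferentiableOn ℂ φ (ball 0 1))
    (hm : MapsTo φ (ball 0 1) (ball 0 1)) (hω : ‖ω‖ < 1) (T : L2 →L[ℂ] L2)
    (hT : ∀ a : L2, ∀ z ∈ ball (0 : ℂ) 1, ∑' n : ℕ, (T a) n * z ^ n = ∑' n : ℕ, a n * (φ z) ^ n)
    (h : Tendsto (fun n : ℕ => ‖(T ^ n) (ee 1) - ω • ee 0‖ ^ ((n : ℝ)⁻¹)) atTop (𝓝 0)) :
    Tendsto (fun n : ℕ => (⨅ K : {K : L2 →L[ℂ] L2 // IsCompactOperator (⇑K)},
      ‖T ^ n - K.1‖) ^ ((n : ℝ)⁻¹)) atTop (𝓝 0) := by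
  have m1 : ∀ n z, ‖z‖ < 1 → ‖φ^[n] z‖ < 1 := fun n z hz => by
    simpa using hm.iterate n (by simpa using hz)
  have h1 : ∀ n a z, ‖z‖ < 1 → G ((T ^ n) a) z = G a (φ^[n] z) := fun n => by
    induction n with
    | zero => exact fun a z _ => rfl
    | succ n ih =>
      intro a z hz
      have e := hT a (φ^[n] z) (by simpa using m1 n z hz)
      rw [(ev_eq (m1 n z hz) _).tsum_eq, (ev_eq (by
        simpa only [Function.iterate_succ_apply'] using m1 (n + 1) z hz) _).tsum_eq] at e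
      rw [pow_succ, Function.iterate_succ_apply']
      exact (ih (T a) z hz).trans e
  have h2 : ∀ n, DifferentiableOn ℂ φ^[n] (ball 0 1) := fun n => hd.iterate hm n
  have hδ : 0 < (1 - ‖ω‖) / 2 := by linarith
  set δ := (1 - ‖ω‖) / 2 with hδe
  have hK : IsCompactOperator ((ContinuousLinearMap.toSpanSingleton ℂ (ee 0)).comp
      (innerSL ℂ (kk ω))) := (isCompactOperator_of_locallyCompactSpace_rng
        (ContinuousLinearMap.toSpanSingleton ℂ (ee 0))).comp_clm _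
  refine lim hδ (by linarith [norm_nonneg ω]) (C := 1 + 3 / δ ^ 3 * (1 + ‖kk ω‖) ^ 2)
    (le_add_of_nonneg_right (by positivity)) (fun n => Real.iInf_nonneg fun _ => norm_nonneg _)
    (fun n => norm_nonneg _) (fun n hn => ?_) h
  set p := (T ^ n) (ee 1) - ω • ee 0 with hp
  refine (pow_le_pow_left₀ (Real.iInf_nonneg fun _ => norm_nonneg _) (ciInf_le
    ⟨0, by rintro _ ⟨K, rfl⟩; exact norm_nonneg _⟩ ⟨_, hK⟩) 2).trans ?_
  rw [← Real.le_sqrt (norm_nonneg _) (by positivity)]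
  refine ContinuousLinearMap.opNorm_le_bound _ (Real.sqrt_nonneg _) fun a => ?_
  refine le_of_sq_le_sq ?_ (by positivity)
  have h3 := key (h2 n) (hm.iterate n) hδ (w := ω) (by rw [hδe]; ring) p (fun z hz => by
    rw [hp, G_sub, h1 n _ z hz, G_ee _ hz, G_ee _ (m1 n z hz), pow_zero, pow_one, mul_one]) hn
    (a - G a ω • ee 0) ((T ^ n) a - G a ω • ee 0) (by
      rw [G_sub, G_ee _ hω, pow_zero, mul_one, sub_self]) fun z hz => by
      rw [G_sub, G_sub, h1 n _ z hz, G_ee _ hz, G_ee _ (m1 n z hz), pow_zero, pow_zero]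
  have h4 : ‖a - G a ω • ee 0‖ ≤ (1 + ‖kk ω‖) * ‖a‖ := by
    have := norm_sub_le a (G a ω • ee 0)
    rw [norm_smul, norm_ee, mul_one] at this
    linarith [show ‖G a ω‖ ≤ ‖kk ω‖ * ‖a‖ from norm_inner_le_norm _ _]
  have h5 := mul_le_mul_of_nonneg_left (pow_le_pow_left₀ (norm_nonneg _) h4 2)
    (show 0 ≤ 3 / δ ^ 3 * ‖p‖ by positivity)
  rw [mul_pow, Real.sq_sqrt (by positivity)]
  refine (h3.trans h5).trans ?_
  nlinarith [mul_nonneg (norm_nonneg p) (sq_nonneg ‖a‖)]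

end Pool.Agent.H.MP_ed6c6b_an
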